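import Pool.Agent.Q205.DG.Stm

set_option autoImplicit false

/-! Project DG: from closeness to the Hausdorff distance one half. -/

namespace Pool.Agent.Q208.DG

open Pool.Agent.Helper743 Pool.Agent.H166R3.HD Pool.Agent.Q205.DG Pool.Agent.H454R3.Att
open MeasureTheory Filter Topology
open scoped Classical ENNReal

theorem le_iff_tr {A B : Set ℕ} : Le A B ↔ TR (chi A) (chi B) := TR_iff.symm

theorem chi_hat (A : ℕ → Bool) : chi {n | A n = true} = hat A := by
  funext n
  unfold chi hat
  cases h : A n <;> simp [h]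

theorem mem_low {x : CoarseSpace} {S : Set ℕ} :
    x ∈ low (deg S) ↔ ∃ T : Set ℕ, Le T S ∧ x = cls T := by
  constructor
  · rintro ⟨T, D, h1, h2, h3⟩
    have h4 : Le D S ∧ Le S D := Quotient.exact h1
    exact ⟨T, h2.trans h4.1, h3⟩
  · rintro ⟨T, h1, h2⟩
    exact ⟨T, S, rfl, h1, h2⟩

/-- the number of disagreements of two characteristic functions -/
theorem dd_chi (S T : Set ℕ) (m : ℕ) :
    ((symmDiff S T ∩ Set.Iio m).ncard : ℝ) = dd (chi S) (chi T) m := by
  have h : symmDiff S T ∩ Set.Iio m =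
      (((Finset.range m).filter (fun i => ¬ (chi S i = 1 ↔ chi T i = 1)) : Finset ℕ) : Set ℕ) := by
    ext i
    simp only [Set.mem_inter_iff, Set.mem_symmDiff, Set.mem_Iio, Finset.coe_filter,
      Finset.mem_range, Set.mem_ofPred_eq, chi]
    by_cases h1 : i ∈ S <;> by_cases h2 : i ∈ T <;> simp [h1, h2]
  rw [h, Set.ncard_coe_finset]
  rfl

theorem notfar_le {k d m : ℕ} (hk : 1 ≤ k) (h : ¬ Far k d m) :
    (d : ℝ) / m ≤ 1 / 2 + 1 / (2 * k) := by
  have hk0 : (0:ℝ) < k := by exact_mod_cast hk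
  unfold Far at h
  push Not at h
  have h' : 2 * (k:ℝ) * d ≤ (k + 1) * m := by exact_mod_cast h
  rcases Nat.eq_zero_or_pos m with hm | hm
  · subst hm
    simp only [Nat.cast_zero, div_zero]
    positivity
  · have hm0 : (0:ℝ) < m := by exact_mod_cast hm
    rw [div_le_iff₀ hm0]
    have : (1 / 2 + 1 / (2 * (k:ℝ))) * m = ((k + 1) * m) / (2 * k) := by field_simp
    rw [this, le_div_iff₀ (by positivity)]
    linarith

theorem delta_le_of_notfar {k : ℕ} (hk : 1 ≤ k) {S T : Set ℕ} {n : ℕ}
    (h : ∀ m ≥ n, ¬ Far k (dd (chi S) (chi T) m) m) : delta S T ≤ 1 / 2 + 1 / (2 * k) := by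
  refine upperDensity_le ?_
  filter_upwards [eventually_ge_atTop n] with m hm
  rw [dd_chi]
  exact notfar_le hk (h m hm)

/-- the complement of a number sequence considered as a zero-one sequence -/
theorem dd_compl (S T : Set ℕ) (m : ℕ) :
    dd (chi S) (chi Tᶜ) m + dd (chi S) (chi T) m = m := by
  unfold dd
  rw [← Finset.card_union_of_disjoint]
  · have : (Finset.range m).filter (fun i => ¬ (chi S i = 1 ↔ chi Tᶜ i = 1)) ∪
        (Finset.range m).filter (fun i => ¬ (chi S i = 1 ↔ chi T i = 1)) = Finset.range m := by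
      ext i
      simp only [Finset.mem_union, Finset.mem_filter, Finset.mem_range, chi, Set.mem_compl_iff]
      by_cases h1 : i ∈ S <;> by_cases h2 : i ∈ T <;> simp [h1, h2]
    rw [this, Finset.card_range]
  · rw [Finset.disjoint_left]
    intro i h1 h2
    simp only [Finset.mem_filter, chi, Set.mem_compl_iff] at h1 h2
    by_cases h3 : i ∈ S <;> by_cases h4 : i ∈ T <;> simp_all

theorem half_le_of_notfar {k : ℕ} (hk : 1 ≤ k) {S T : Set ℕ} {n : ℕ}
    (h : ∀ m ≥ n, ¬ Far k (dd (chi S) (chi Tᶜ) m) m) : 1 / 2 - 1 / (2 * k) ≤ delta S T := by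
  refine le_upperDensity (Eventually.frequently ?_)
  filter_upwards [eventually_ge_atTop n, eventually_ge_atTop 1] with m hm hm1
  rw [dd_chi]
  have h1 := notfar_le hk (h m hm)
  have h2 : ((dd (chi S) (chi Tᶜ) m : ℕ) : ℝ) + ((dd (chi S) (chi T) m : ℕ) : ℝ) = m := by
    exact_mod_cast dd_compl S T m
  have hm0 : (0:ℝ) < m := by exact_mod_cast hm1
  have h3 : ((dd (chi S) (chi Tᶜ) m : ℕ) : ℝ) / m + ((dd (chi S) (chi T) m : ℕ) : ℝ) / m = 1 := by
    rw [← add_div, h2, div_self hm0.ne']
  linarith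

theorem disX_dd (v : ℕ → ℕ) (m : ℕ) (C : ℕ → Bool) :
    disX v m C = dd (chi {n | C n = true}) v m := by
  unfold disX dd
  congr 1
  apply Finset.filter_congr
  intro i _
  rw [chi_hat]
  unfold hat
  cases C i <;> simp

theorem dd_comm (u v : ℕ → ℕ) (m : ℕ) : dd u v m = dd v u m := by
  unfold dd
  congr 1
  apply Finset.filter_congr
  intro i _
  tauto

theorem le_of_forall_half {x : ℝ} (h : ∀ k : ℕ, 1 ≤ k → x ≤ 1 / 2 + 1 / (2 * k)) : x ≤ 1 / 2 := by
  refine le_of_forall_pos_le_add fun ε hε => ?_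
  obtain ⟨k, hk⟩ := exists_nat_gt (1 / ε)
  have hk0 : (0:ℝ) < k := lt_trans (by positivity) hk
  have hk1 : 1 ≤ k := by exact_mod_cast hk0
  refine (h k hk1).trans ?_
  have : 1 / (2 * (k:ℝ)) ≤ ε := by
    rw [div_le_iff₀ (by positivity)]
    rw [div_lt_iff₀ hε] at hk
    nlinarith
  linarith

theorem bdd_coarse (s : Set CoarseSpace) : Bornology.IsBounded s := by
  rw [Metric.isBounded_iff]
  refine ⟨1, fun a _ b _ => ?_⟩
  obtain ⟨a, rfl⟩ := SeparationQuotient.surjective_mk a
  obtain ⟨b, rfl⟩ := SeparationQuotient.surjective_mk b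
  exact upperDensity_le_one _

theorem task_HH : S_HH := by
  intro A C h1 h2
  set SA : Set ℕ := {n | A n = true} with hSA
  set SC : Set ℕ := {n | C n = true} with hSC
  have hcA : chi SA = hat A := chi_hat A
  have hcC : chi SC = hat C := chi_hat C
  have hmemC : cls SC ∈ low (deg SC) := mem_low.2 ⟨SC, Le.refl _, rfl⟩
  -- the upper bound
  have hup : ∀ k : ℕ, 1 ≤ k →
      Metric.hausdorffDist (low (deg SA)) (low (deg SC)) ≤ 1 / 2 + 1 / (2 * k) := by
    intro k hk
    refine Metric.hausdorffDist_le_of_mem_dist (by positivity) ?_ ?_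
    · intro x hx
      obtain ⟨T, hT, rfl⟩ := mem_low.1 hx
      refine ⟨cls SC, hmemC, ?_⟩
      rw [dist_cls, delta_comm]
      have hT' : TR (chi T) (hat A) := by rw [← hcA]; exact le_iff_tr.1 hT
      obtain ⟨n, hn⟩ := h2 k hk _ hT'
      refine delta_le_of_notfar hk (n := n) fun m hm => ?_
      have := hn m hm
      rw [disX_dd] at this
      exact this
    · intro x hx
      obtain ⟨T, hT, rfl⟩ := mem_low.1 hx
      have hT' : TR (chi T) (hat C) := by rw [← hcC]; exact le_iff_tr.1 hT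
      obtain ⟨v, hv, hv1, n, hn⟩ := h1 k hk _ hT'
      have hchi : chi {i | v i = 1} = v := by
        funext i
        have := hv1 i
        unfold chi
        by_cases h : v i = 1
        · simp [h]
        · simp only [Set.mem_ofPred_eq, h, if_false]
          omega
      refine ⟨cls {i | v i = 1}, mem_low.2 ⟨_, le_iff_tr.2 ?_, rfl⟩, ?_⟩
      · rw [hchi, hcA]; exact hv
      · rw [dist_cls]
        refine delta_le_of_notfar hk (n := n) fun m hm => ?_
        rw [hchi]
        exact hn m hm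
  have hup' : Metric.hausdorffDist (low (deg SA)) (low (deg SC)) ≤ 1 / 2 := le_of_forall_half hup
  -- the lower bound
  have hmemA : cls SA ∈ low (deg SA) := mem_low.2 ⟨SA, Le.refl _, rfl⟩
  have hlow : 1 / 2 ≤ Metric.hausdorffDist (low (deg SA)) (low (deg SC)) := by
    rw [Metric.hausdorffDist_comm]
    have h3 := Metric.infDist_le_hausdorffDist_of_mem hmemC
      (Metric.hausdorffEDist_ne_top_of_nonempty_of_bounded ⟨_, hmemC⟩ ⟨_, hmemA⟩
        (bdd_coarse (low (deg SC))) (bdd_coarse (low (deg SA))))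
    refine le_trans ?_ h3
    rw [Metric.le_infDist ⟨_, hmemA⟩]
    intro y hy
    obtain ⟨T, hT, rfl⟩ := mem_low.1 hy
    rw [dist_cls]
    have hT' : TR (chi Tᶜ) (hat A) := by
      have h4 : TR (chi T) (hat A) := by rw [← hcA]; exact le_iff_tr.1 hT
      refine RecT.congr (RecT.sub (recT_const 1) h4) ?_
      intro n
      unfold chi
      by_cases h : n ∈ T <;> simp [h]
    have h5 : ∀ k : ℕ, 1 ≤ k → 1 - delta SC T ≤ 1 / 2 + 1 / (2 * k) := by
      intro k hk
      obtain ⟨n, hn⟩ := h2 k hk _ hT'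
      have := half_le_of_notfar hk (S := SC) (T := T) (n := n) fun m hm => by
        have := hn m hm
        rw [disX_dd] at this
        exact this
      linarith
    have := le_of_forall_half h5
    linarith
  have hH : Pool.Agent.Q205.DG.H (deg SA) (deg SC) = 1 / 2 := by
    unfold Pool.Agent.Q205.DG.H
    rw [Metric.hausdorffDist_closure]
    exact le_antisymm hup' hlow
  refine ⟨?_, hH⟩
  intro heq
  rw [heq] at hH
  unfold Pool.Agent.Q205.DG.H at hH
  rw [Metric.hausdorffDist_self_zero] at hH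
  norm_num at hH

end Pool.Agent.Q208.DG
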