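import Pool.Agent.Q205.DG.Stm

set_option autoImplicit false

/-! Project DG: restricting a class to the points which are coarsely near a half of `v`. -/

namespace Pool.Agent.Q208.DG

open Pool.Agent.Helper743 Pool.Agent.H166R3.HD Pool.Agent.Q205.DG
open MeasureTheory Filter Topology
open scoped Classical ENNReal

theorem task_RAN (hT : S_TAIL) : S_RAN := by
  intro O v hv q hq hpos k hk
  obtain ⟨ρ, h0, h1, hρ⟩ := hT k hk
  have hpos' : 0 < cm.real (Cl q) := ENNReal.toReal_pos hpos.ne' (measure_ne_top _ _)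
  have h1' : 0 < 1 - ρ := by linarith
  obtain ⟨N, hN⟩ : ∃ N : ℕ, ρ ^ N / (1 - ρ) < cm.real (Cl q) := by
    obtain ⟨N, hN⟩ := exists_pow_lt_of_lt_one (mul_pos hpos' h1') h1
    refine ⟨N, ?_⟩
    rw [div_lt_iff₀ h1']
    exact hN
  let q' : ℕ → Prop := fun z => q z ∨ ∃ m < z.unpair.1 + 1, N ≤ m ∧
    Far k (dis v m (z.unpair.2 % 2^m)) m
  have hq' : RP O q' := by
    refine RP.or hq ?_
    have hm : RecT O (fun w => w.unpair.2) := RecT.snd recT_id
    have hcount : RecT O (fun w => dis v w.unpair.2 (w.unpair.1.unpair.2 % 2^w.unpair.2)) := by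
      have hp : RP O (fun u => ¬ (v u.unpair.2 = 1 ↔
          (u.unpair.1.unpair.1.unpair.2 % 2^u.unpair.1.unpair.2) / 2^u.unpair.2 % 2 = 1)) :=
        RP.not (RP.iff (RP.eq (RecT.comp hv (RecT.snd recT_id)) (recT_const 1))
          (RP.eq (RecT.mod (RecT.div (RecT.mod (RecT.snd (RecT.fst (RecT.fst recT_id)))
            (RecT.twopow (RecT.snd (RecT.fst recT_id)))) (RecT.twopow (RecT.snd recT_id)))
            (recT_const 2)) (recT_const 1)))
      refine RecT.congr (RecT.count hp hm) ?_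
      intro u
      simp [dis]
    have hfar : RP O (fun w => N ≤ w.unpair.2 ∧
        Far k (dis v w.unpair.2 (w.unpair.1.unpair.2 % 2^w.unpair.2)) w.unpair.2) := by
      refine RP.and (RP.le (recT_const N) hm) ?_
      exact RP.lt (RecT.mul (recT_const (k+1)) hm) (RecT.mul (recT_const (2*k)) hcount)
    refine RP.congr (RP.bex hfar (RecT.add (RecT.fst recT_id) (recT_const 1))) ?_
    intro z
    simp
  let B : ℕ → Set (ℕ → Bool) := fun m => {X | Far k (dis v (N+m) (enc X (N+m))) (N+m)}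
  have hsub : Cl q ⊆ Cl q' ∪ ⋃ m, B m := by
    intro X hX
    by_cases h : ∃ m, N ≤ m ∧ Far k (dis v m (enc X m)) m
    · right
      obtain ⟨m, hm, h⟩ := h
      obtain ⟨d, rfl⟩ := Nat.exists_eq_add_of_le hm
      rw [Set.mem_iUnion]
      exact ⟨d, h⟩
    · left
      push Not at h
      rintro n (hn | ⟨m, hm1, hm2, hm3⟩)
      · exact hX n hn
      · simp only [Nat.unpair_pair] at hm1 hm3
        rw [enc_mod X (by omega)] at hm3
        exact h m hm2 hm3
  have hB : ∀ m, cm (B m) ≤ ENNReal.ofReal (ρ ^ (N+m)) := by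
    intro m
    rw [← ENNReal.ofReal_toReal (measure_ne_top cm _)]
    exact ENNReal.ofReal_le_ofReal (hρ v (N+m))
  have hsum : ∑' m, ENNReal.ofReal (ρ ^ (N+m)) = ENNReal.ofReal (ρ ^ N / (1 - ρ)) := by
    have e : ∀ m : ℕ, ρ ^ (N+m) = ρ ^ N * ρ ^ m := fun m => pow_add _ _ _
    simp_rw [e]
    rw [← ENNReal.ofReal_tsum_of_nonneg (fun x => by positivity)]
    · rw [tsum_mul_left, tsum_geometric_of_lt_one h0.le h1, div_eq_mul_inv]
    · exact (summable_geometric_of_lt_one h0.le h1).mul_left _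
  refine ⟨q', hq', ?_, fun X hX n hn => hX n (Or.inl hn), ?_⟩
  · by_contra hc
    have hc' : cm (Cl q') = 0 := by simpa using hc
    have h2 : cm (Cl q) ≤ ENNReal.ofReal (ρ ^ N / (1 - ρ)) := by
      calc cm (Cl q) ≤ cm (Cl q' ∪ ⋃ m, B m) := measure_mono hsub
        _ ≤ cm (Cl q') + cm (⋃ m, B m) := measure_union_le _ _
        _ ≤ 0 + ∑' m, cm (B m) := by
            rw [hc']; exact add_le_add le_rfl (measure_iUnion_le _)
        _ ≤ 0 + ∑' m, ENNReal.ofReal (ρ ^ (N+m)) :=
            add_le_add le_rfl (ENNReal.tsum_le_tsum hB)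
        _ = ENNReal.ofReal (ρ ^ N / (1 - ρ)) := by rw [hsum, zero_add]
    have h3 : cm.real (Cl q) ≤ ρ ^ N / (1 - ρ) := by
      unfold Measure.real
      refine (ENNReal.toReal_mono ENNReal.ofReal_ne_top h2).trans ?_
      rw [ENNReal.toReal_ofReal (by positivity)]
    linarith
  · intro X hX
    refine ⟨N, fun m hm hF => hX m (Or.inr ⟨m, ?_, hm, ?_⟩)⟩
    · simp only [Nat.unpair_pair]; omega
    · simp only [Nat.unpair_pair]
      rw [enc_mod X le_rfl, ← disX_eq v le_rfl X]
      exact hF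

end Pool.Agent.Q208.DG
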