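import Pool.Agent.Q205.DG.Stm

set_option autoImplicit false

/-! Project DG: the exponential inequality and the tail bound for fair coins. -/

namespace Pool.Agent.Q208.DG

open Pool.Agent.Helper743 Pool.Agent.H166R3.HD Pool.Agent.Q205.DG
open MeasureTheory Filter Topology
open scoped Classical ENNReal

theorem task_RHO : S_RHO := by
  intro k hk
  have hk0 : (0:ℝ) < k := by exact_mod_cast hk
  set s : ℝ := ((k:ℝ) + 1) / k with hs
  have hs1 : 1 < s := by
    rw [hs, lt_div_iff₀ hk0]; linarith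
  have hs0 : 0 < s := by linarith
  set r : ℝ := s ^ ((1:ℝ) / k) with hr
  have hr0 : 0 < r := Real.rpow_pos_of_pos hs0 _
  have hrk : r ^ k = s := by
    rw [hr, ← Real.rpow_natCast, ← Real.rpow_mul hs0.le, one_div, inv_mul_cancel₀ hk0.ne',
      Real.rpow_one]
  have hkne : k ≠ 0 := by omega
  -- the ratio
  have hq : (1 + s ^ 2) / (2 * s) = 1 + 1 / (2 * k * (k + 1)) := by
    rw [hs]; field_simp; ring
  have hqr : (1 + s ^ 2) / (2 * s) < r := by
    refine lt_of_pow_lt_pow_left₀ k hr0.le ?_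
    rw [hrk, hq]
    have h1 : (1 + 1 / (2 * (k:ℝ) * (k + 1))) ^ k ≤ Real.exp (1 / (2 * ((k:ℝ) + 1))) := by
      calc (1 + 1 / (2 * (k:ℝ) * (k + 1))) ^ k ≤ (Real.exp (1 / (2 * (k:ℝ) * (k + 1)))) ^ k := by
            refine pow_le_pow_left₀ (by positivity) ?_ k
            have := Real.add_one_le_exp (1 / (2 * (k:ℝ) * (k + 1)))
            linarith
        _ = Real.exp (1 / (2 * ((k:ℝ) + 1))) := by
            rw [← Real.exp_nat_mul]
            congr 1
            field_simp
    have h2 : Real.exp (1 / (2 * ((k:ℝ) + 1))) < Real.exp (1 / ((k:ℝ) + 1)) := by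
      apply Real.exp_lt_exp.2
      apply one_div_lt_one_div_of_lt (by positivity)
      linarith
    have h3 : Real.exp (1 / ((k:ℝ) + 1)) ≤ s := by
      rw [← Real.le_log_iff_exp_le hs0]
      have h4 := Real.one_sub_inv_le_log_of_pos hs0
      have h5 : 1 - s⁻¹ = 1 / ((k:ℝ) + 1) := by
        rw [hs]; field_simp; ring
      linarith
    linarith
  refine ⟨(1 + s ^ 2) / (2 * s) / r, by positivity, ?_, ?_⟩
  · rw [div_lt_one hr0]; exact hqr
  · intro d m hF
    have hF' : (k + 1) * m ≤ 2 * k * d := le_of_lt hF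
    have h1 : (s * r) ^ m ≤ s ^ (2 * d) := by
      refine le_of_pow_le_pow_left₀ hkne (by positivity) ?_
      calc ((s * r) ^ m) ^ k = (s ^ k * r ^ k) ^ m := by
            rw [← mul_pow, ← pow_mul, ← pow_mul, mul_comm m k]
        _ = s ^ ((k + 1) * m) := by
            rw [hrk, ← pow_succ, ← pow_mul]
        _ ≤ s ^ (2 * k * d) := pow_le_pow_right₀ hs1.le hF'
        _ = (s ^ (2 * d)) ^ k := by rw [← pow_mul]; congr 1; ring
    have h2 : (2 * ((1 + s ^ 2) / (2 * s) / r)) ^ m * (s * r) ^ m = (1 + s ^ 2) ^ m := by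
      rw [← mul_pow]
      congr 1
      field_simp
    calc (1 + s ^ 2) ^ m = (2 * ((1 + s ^ 2) / (2 * s) / r)) ^ m * (s * r) ^ m := h2.symm
      _ ≤ (2 * ((1 + s ^ 2) / (2 * s) / r)) ^ m * s ^ (2 * d) :=
          mul_le_mul_of_nonneg_left h1 (by positivity)

theorem sum_pow_dis_real (t : ℝ) (v : ℕ → ℕ) (m : ℕ) :
    ∑ k ∈ Finset.range (2^m), t^(dis v m k) = (1 + t)^m := by
  induction m with
  | zero => simp [dis]
  | succ m ih =>
    have h2 : 2^(m+1) = 2^m + 2^m := by ring
    rw [h2, Finset.sum_range_add]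
    have e1 : ∀ k ∈ Finset.range (2^m), t^(dis v (m+1) k) =
        t^(dis v m k) * (if v m = 1 then t else 1) := by
      intro k hk
      rw [Finset.mem_range] at hk
      rw [dis_succ, Nat.div_eq_of_lt hk, pow_add]
      by_cases h : v m = 1 <;> simp [h]
    have e2 : ∀ k ∈ Finset.range (2^m), t^(dis v (m+1) (2^m + k)) =
        t^(dis v m k) * (if v m = 1 then 1 else t) := by
      intro k hk
      rw [Finset.mem_range] at hk
      have : (2^m + k) / 2^m = 1 := by
        rw [Nat.add_div_left _ (by positivity), Nat.div_eq_of_lt hk]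
      rw [dis_succ, this, pow_add, dis_add]
      by_cases h : v m = 1 <;> simp [h]
    rw [Finset.sum_congr rfl e1, Finset.sum_congr rfl e2, ← Finset.sum_mul, ← Finset.sum_mul, ih]
    by_cases h : v m = 1 <;> simp [h] <;> ring

theorem tail_of_rho (hR : S_RHO) : S_TAIL := by
  intro k hk
  obtain ⟨ρ, h0, h1, hρ⟩ := hR k hk
  refine ⟨ρ, h0, h1, fun v m => ?_⟩
  rw [cm_encset_real m (fun K => Far k (dis v m K) m), div_le_iff₀ (by positivity), ← mul_pow]
  set s : ℝ := ((k:ℝ) + 1) / k with hs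
  have hA : (0:ℝ) < (1 + s ^ 2) ^ m := by positivity
  have hmain : (((Finset.range (2^m)).filter (fun K => Far k (dis v m K) m)).card : ℝ) *
      (1 + s ^ 2) ^ m ≤ (2 * ρ) ^ m * (1 + s ^ 2) ^ m := by
    calc (((Finset.range (2^m)).filter (fun K => Far k (dis v m K) m)).card : ℝ) *
        (1 + s ^ 2) ^ m
        = ∑ K ∈ (Finset.range (2^m)).filter (fun K => Far k (dis v m K) m), (1 + s ^ 2) ^ m := by
          rw [Finset.sum_const, nsmul_eq_mul]
      _ ≤ ∑ K ∈ (Finset.range (2^m)).filter (fun K => Far k (dis v m K) m),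
          (2 * ρ) ^ m * (s ^ 2) ^ (dis v m K) := by
          refine Finset.sum_le_sum fun K hK => ?_
          have := hρ _ _ (Finset.mem_filter.1 hK).2
          rw [← pow_mul]
          exact this
      _ ≤ ∑ K ∈ Finset.range (2^m), (2 * ρ) ^ m * (s ^ 2) ^ (dis v m K) :=
          Finset.sum_le_sum_of_subset_of_nonneg (Finset.filter_subset _ _)
            (fun _ _ _ => by positivity)
      _ = (2 * ρ) ^ m * (1 + s ^ 2) ^ m := by
          rw [← Finset.mul_sum, sum_pow_dis_real]
  have := le_of_mul_le_mul_right hmain hA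
  rw [mul_comm 2 ρ] at this
  exact this

theorem task_TAIL : S_TAIL := tail_of_rho task_RHO

end Pool.Agent.Q208.DG
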