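import Pool.Agent.Q205.DG.Stm

set_option autoImplicit false

/-! Project DG: bounded totality on an effectively closed class of positive measure. -/

namespace Pool.Agent.Q208.DG

open Pool.Agent.Helper743 Pool.Agent.H166R3.HD Pool.Agent.Q205.DG
open MeasureTheory Filter Topology
open scoped Classical ENNReal

theorem task_TOT : S_TOT := by
  intro O ev hev hm q hq hpos
  have hG : RecT O G0 := recT_const 0
  set G := G0 with hGdef
  by_cases hd : ∃ x, 0 < cm (Div G ev q x)
  · obtain ⟨x, hx⟩ := hd
    obtain ⟨q', h1, h2⟩ := div_cl hG hev hq x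
    rw [← h2] at hx
    refine ⟨q', h1, hx, ?_, Or.inl ⟨x, ?_⟩⟩
    · rw [h2]; exact fun X hX => hX.1
    · rw [h2]; exact fun X hX => hX.2
  · push Not at hd
    obtain ⟨j, hj⟩ : ∃ j : ℕ, ((1:ℝ)/2)^j < cm.real (Cl q) := by
      have : 0 < cm.real (Cl q) := ENNReal.toReal_pos hpos.ne' (measure_ne_top _ _)
      exact exists_pow_lt_of_lt_one this (by norm_num)
    have hex : ∀ x, ∃ s, ((Finset.range (2^s)).filter (fun k => Bad G ev q x s k)).card *
      2^(j+x+1) < 2^s := by
      intro x
      have hlim : Tendsto (fun s => cm.real {X : ℕ → Bool | Bad G ev q x s (enc X s)}) atTop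
          (𝓝 0) := by
        have h1 := tendsto_measure_iInter_atTop (μ := cm)
          (s := fun s => {X : ℕ → Bool | Bad G ev q x s (enc X s)})
          (fun s => (meas_encset s _).nullMeasurableSet)
          (fun s t hst X hX => bad_anti hm hst hX) ⟨0, measure_ne_top _ _⟩
        rw [iInter_bad hm, nonpos_iff_eq_zero.1 (hd x)] at h1
        have h2 := (ENNReal.tendsto_toReal (ENNReal.zero_ne_top)).comp h1
        simpa [Measure.real, Function.comp_def] using h2
      have hpos2 : (0:ℝ) < (1/2)^(j+x+1) := by positivity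
      obtain ⟨s, hs⟩ := (hlim.eventually (gt_mem_nhds hpos2)).exists
      refine ⟨s, ?_⟩
      rw [cm_encset_real s (fun k => Bad G ev q x s k), div_lt_iff₀ (by positivity)] at hs
      have h3 : (((Finset.range (2^s)).filter (fun k => Bad G ev q x s k)).card : ℝ) *
          2^(j+x+1) < 2^s := by
        have h0 : (0:ℝ) < 2^(j+x+1) := by positivity
        refine lt_of_lt_of_eq (mul_lt_mul_of_pos_right hs h0) ?_
        rw [mul_right_comm, ← mul_pow]; norm_num
      exact_mod_cast h3
    obtain ⟨g, hg, h⟩ := bound_fun hG hev hq j hex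
    let q' : ℕ → Prop := fun z => q z ∨ ∃ x < z.unpair.1 + 1, g x ≤ z.unpair.1 ∧
      ¬ ∃ y ≤ g x, ev (seg G (g x) (z.unpair.2 % 2^(g x))) x = some y
    have hq' : RP O q' := by
      refine RP.or hq ?_
      have hgw : RecT O (fun w => g w.unpair.2) := RecT.comp hg (RecT.snd recT_id)
      have h1 : RP O (fun w => g w.unpair.2 ≤ w.unpair.1.unpair.1 ∧
          ¬ ∃ y ≤ g w.unpair.2, ev (seg G (g w.unpair.2)
            (w.unpair.1.unpair.2 % 2^(g w.unpair.2))) w.unpair.2 = some y) :=
        RP.and (RP.le hgw (RecT.fst (RecT.fst recT_id)))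
          (RP.not (rp_ev hG hev hgw (RecT.mod (RecT.snd (RecT.fst recT_id))
            (RecT.twopow hgw)) (RecT.snd recT_id) hgw))
      refine RP.congr (RP.bex h1 (RecT.add (RecT.fst recT_id) (recT_const 1))) ?_
      intro z
      simp
    have hkey : ∀ X, X ∈ Cl q' ↔ X ∈ Cl q ∧ ∀ x, ∃ y ≤ g x, ev (pre (J G X) (g x)) x = some y := by
      intro X
      constructor
      · intro hX
        refine ⟨fun n hn => hX n (Or.inl hn), fun x => ?_⟩
        by_contra hcon
        refine hX (max x (g x)) (Or.inr ⟨x, ?_, ?_, ?_⟩)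
        · simp only [Nat.unpair_pair]
          have := le_max_left x (g x)
          omega
        · simp only [Nat.unpair_pair]
          exact le_max_right x (g x)
        · simp only [Nat.unpair_pair]
          rw [enc_mod X (le_max_right _ _), seg_enc]
          exact hcon
      · rintro ⟨h1, h2⟩ n (hn | ⟨x, _, hx2, hx3⟩)
        · exact h1 n hn
        · simp only [Nat.unpair_pair] at hx2 hx3
          rw [enc_mod X hx2, seg_enc] at hx3
          exact hx3 (h2 x)
    have hsub : Cl q ⊆ Cl q' ∪ ⋃ x, {X : ℕ → Bool | Bad G ev q x (g x) (enc X (g x))} := by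
      intro X hX
      by_cases h1 : X ∈ Cl q'
      · exact Or.inl h1
      · right
        rw [hkey] at h1
        push Not at h1
        obtain ⟨x, hx⟩ := h1 hX
        rw [Set.mem_iUnion]
        refine ⟨x, ?_⟩
        show Bad G ev q x (g x) (enc X (g x))
        rw [bad_enc]
        refine ⟨fun n _ => hX n, ?_⟩
        rintro ⟨y, hy, h2⟩
        exact hx y hy h2
    have hbd : ∀ x, cm {X : ℕ → Bool | Bad G ev q x (g x) (enc X (g x))} ≤
        ENNReal.ofReal ((1/2)^(j+x+1)) := by
      intro x
      have h1 : cm.real {X : ℕ → Bool | Bad G ev q x (g x) (enc X (g x))} ≤ (1/2)^(j+x+1) := by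
        rw [cm_encset_real (g x) (fun k => Bad G ev q x (g x) k), div_le_iff₀ (by positivity)]
        have h2 : (((Finset.range (2^(g x))).filter (fun k => Bad G ev q x (g x) k)).card : ℝ) *
          2^(j+x+1) < 2^(g x) := by exact_mod_cast h x
        have h3 : (0:ℝ) < 2^(j+x+1) := by positivity
        rw [one_div, inv_pow, inv_mul_eq_div, le_div_iff₀ h3]
        exact h2.le
      rw [← ENNReal.ofReal_toReal (measure_ne_top cm _)]
      exact ENNReal.ofReal_le_ofReal h1
    have hsum : ∑' x, ENNReal.ofReal ((1/2:ℝ)^(j+x+1)) = ENNReal.ofReal ((1/2)^j) := by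
      rw [← ENNReal.ofReal_tsum_of_nonneg (fun x => by positivity)]
      · congr 1
        have : ∀ x : ℕ, ((1:ℝ)/2)^(j+x+1) = ((1/2)^j * (1/2)) * (1/2)^x := by
          intro x; rw [pow_succ, pow_add]; ring
        simp_rw [this]
        rw [tsum_mul_left, tsum_geometric_two]
        ring
      · have : ∀ x : ℕ, ((1:ℝ)/2)^(j+x+1) = ((1/2)^j * (1/2)) * (1/2)^x := by
          intro x; rw [pow_succ, pow_add]; ring
        simp_rw [this]
        exact (summable_geometric_two).mul_left _
    refine ⟨q', hq', ?_, fun X hX => ((hkey X).1 hX).1, Or.inr ⟨g, hg, ?_⟩⟩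
    · by_contra h0
      have h0' : cm (Cl q') = 0 := by simpa using h0
      have h1 : cm (Cl q) ≤ ENNReal.ofReal ((1/2)^j) := by
        calc cm (Cl q) ≤ cm (Cl q' ∪ ⋃ x, {X : ℕ → Bool | Bad G ev q x (g x) (enc X (g x))}) :=
              measure_mono hsub
          _ ≤ cm (Cl q') + cm (⋃ x, {X : ℕ → Bool | Bad G ev q x (g x) (enc X (g x))}) :=
              measure_union_le _ _
          _ ≤ 0 + ∑' x, cm {X : ℕ → Bool | Bad G ev q x (g x) (enc X (g x))} := by
              rw [h0']; exact add_le_add le_rfl (measure_iUnion_le _)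
          _ ≤ 0 + ∑' x, ENNReal.ofReal ((1/2:ℝ)^(j+x+1)) :=
              add_le_add le_rfl (ENNReal.tsum_le_tsum hbd)
          _ = ENNReal.ofReal ((1/2)^j) := by rw [hsum, zero_add]
      have h2 : cm.real (Cl q) ≤ (1/2)^j := by
        unfold Measure.real
        refine (ENNReal.toReal_mono ENNReal.ofReal_ne_top h1).trans ?_
        rw [ENNReal.toReal_ofReal (by positivity)]
      linarith
    · intro X hX x
      obtain ⟨y, _, h1⟩ := ((hkey X).1 hX).2 x
      exact ⟨y, h1⟩

end Pool.Agent.Q208.DG
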